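import Mathlib

/-!
The binary tree with harmonic edge lengths, and the set-valued map sending a node to the set
of nodes that are not ancestors of it.
-/

set_option autoImplicit false

namespace Pool.Agent.Work.MP_3789da_an

open Filter Topology

/-- Length of the longest common initial segment of two words. -/
def cpl : List Bool → List Bool → ℕ
  | a :: l, b :: m => if a = b then cpl l m + 1 else 0
  | _, _ => 0

theorem cpl_nil_left (m : List Bool) : cpl [] m = 0 := by
  cases m <;> rfl

theorem cpl_nil_right (l : List Bool) : cpl l [] = 0 := by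
  cases l <;> rfl

theorem cpl_cons (a b : Bool) (l m : List Bool) :
    cpl (a :: l) (b :: m) = if a = b then cpl l m + 1 else 0 := rfl

theorem cpl_comm : ∀ l m : List Bool, cpl l m = cpl m l
  | [], m => by rw [cpl_nil_left, cpl_nil_right]
  | a :: l, [] => by rw [cpl_nil_left, cpl_nil_right]
  | a :: l, b :: m => by
    rw [cpl_cons, cpl_cons, cpl_comm l m]
    by_cases h : a = b
    · subst h; rfl
    · rw [if_neg h, if_neg (fun h' => h h'.symm)]

theorem cpl_self : ∀ l : List Bool, cpl l l = l.length
  | [] => rfl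
  | a :: l => by rw [cpl_cons, if_pos rfl, cpl_self l, List.length_cons]

theorem cpl_le_left : ∀ l m : List Bool, cpl l m ≤ l.length
  | [], m => by rw [cpl_nil_left]; exact Nat.zero_le _
  | a :: l, [] => by rw [cpl_nil_right]; exact Nat.zero_le _
  | a :: l, b :: m => by
    rw [cpl_cons, List.length_cons]
    have := cpl_le_left l m
    split_ifs <;> omega

theorem cpl_le_right (l m : List Bool) : cpl l m ≤ m.length := by
  rw [cpl_comm]; exact cpl_le_left m l

theorem cpl_ultra : ∀ l m n : List Bool, min (cpl l m) (cpl m n) ≤ cpl l n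
  | [], m, n => by rw [cpl_nil_left]; simp
  | a :: l, [], n => by rw [cpl_nil_right]; simp
  | a :: l, b :: m, [] => by rw [cpl_nil_right (b :: m)]; simp
  | a :: l, b :: m, c :: n => by
    rw [cpl_cons, cpl_cons, cpl_cons]
    have := cpl_ultra l m n
    by_cases h1 : a = b
    · by_cases h2 : b = c
      · have h3 : a = c := h1.trans h2
        rw [if_pos h1, if_pos h2, if_pos h3]
        omega
      · rw [if_neg h2]; simp
    · rw [if_neg h1]; simp

theorem eq_of_cpl : ∀ l m : List Bool, l.length ≤ cpl l m → m.length ≤ cpl l m → l = m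
  | [], [], _, _ => rfl
  | [], b :: m, _, h => by rw [cpl_nil_left] at h; simp at h
  | a :: l, [], h, _ => by rw [cpl_nil_right] at h; simp at h
  | a :: l, b :: m, h1, h2 => by
    rw [cpl_cons, List.length_cons] at h1 h2
    by_cases h : a = b
    · rw [if_pos h] at h1 h2
      rw [h, eq_of_cpl l m (by omega) (by omega)]
    · rw [if_neg h] at h1; omega

theorem cpl_append_single : ∀ (l : List Bool) (b : Bool), cpl l (l ++ [b]) = l.length
  | [], _ => rfl
  | a :: l, b => by
    rw [List.cons_append, cpl_cons, if_pos rfl, cpl_append_single l b, List.length_cons]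

theorem cpl_append_true_false : ∀ l : List Bool, cpl (l ++ [true]) (l ++ [false]) = l.length
  | [] => rfl
  | a :: l => by
    rw [List.cons_append, List.cons_append, cpl_cons, if_pos rfl, cpl_append_true_false l,
      List.length_cons]

/-- Harmonic numbers. -/
noncomputable def hs (n : ℕ) : ℝ := ∑ i ∈ Finset.range n, 1 / ((i : ℝ) + 1)

theorem hs_succ (n : ℕ) : hs (n + 1) = hs n + 1 / ((n : ℝ) + 1) := by
  unfold hs; rw [Finset.sum_range_succ]

theorem hs_mono : Monotone hs := by
  apply monotone_nat_of_le_succ
  intro n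
  rw [hs_succ]
  have : (0 : ℝ) ≤ 1 / ((n : ℝ) + 1) := by positivity
  linarith

theorem hs_zero : hs 0 = 0 := by simp [hs]

theorem hs_tendsto : Tendsto hs atTop atTop :=
  Real.tendsto_sum_range_one_div_nat_succ_atTop

/-- The nodes of the binary tree. -/
def Node : Type := List Bool

/-- The word of a node. -/
def Node.w (x : Node) : List Bool := x

/-- The node of a word. -/
def Node.mk (l : List Bool) : Node := l

/-- The path distance in the tree. -/
noncomputable def td (x y : List Bool) : ℝ := hs x.length + hs y.length - 2 * hs (cpl x y)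

theorem td_lower {x y : List Bool} (h : x ≠ y) : 1 / ((cpl x y : ℝ) + 1) ≤ td x y := by
  have h1 := hs_mono (cpl_le_left x y)
  have h2 := hs_mono (cpl_le_right x y)
  have h3 := hs_succ (cpl x y)
  unfold td
  by_cases hx : x.length ≤ cpl x y
  · by_cases hy : y.length ≤ cpl x y
    · exact absurd (eq_of_cpl x y hx hy) h
    · have h4 := hs_mono (show cpl x y + 1 ≤ y.length by omega)
      linarith
  · have h4 := hs_mono (show cpl x y + 1 ≤ x.length by omega)
    linarith

noncomputable instance : MetricSpace Node where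
  dist x y := td x.w y.w
  dist_self x := by
    show td x.w x.w = 0
    unfold td; rw [cpl_self]; ring
  dist_comm x y := by
    show td x.w y.w = td y.w x.w
    unfold td; rw [cpl_comm]; ring
  dist_triangle x y z := by
    show td x.w z.w ≤ td x.w y.w + td y.w z.w
    unfold td
    have h1 := hs_mono (cpl_ultra x.w y.w z.w)
    have h2 := hs_mono (cpl_le_right x.w y.w)
    have h3 := hs_mono (cpl_le_left y.w z.w)
    rcases le_total (cpl x.w y.w) (cpl y.w z.w) with h | h
    · rw [min_eq_left h] at h1; linarith
    · rw [min_eq_right h] at h1; linarith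
  eq_of_dist_eq_zero := by
    intro x y h
    by_contra hne
    have h1 : 1 / ((cpl x.w y.w : ℝ) + 1) ≤ td x.w y.w := td_lower hne
    have h2 : td x.w y.w = 0 := h
    have h3 : (0 : ℝ) < 1 / ((cpl x.w y.w : ℝ) + 1) := by positivity
    linarith

theorem dist_def (x y : Node) : dist x y = td x.w y.w := rfl

theorem dist_lower {x y : Node} (h : x ≠ y) {N : ℕ} (hN : cpl x.w y.w ≤ N) :
    1 / ((N : ℝ) + 1) ≤ dist x y := by
  have h1 : 1 / ((cpl x.w y.w : ℝ) + 1) ≤ td x.w y.w := td_lower h
  have h2 : 1 / ((N : ℝ) + 1) ≤ 1 / ((cpl x.w y.w : ℝ) + 1) := by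
    apply one_div_le_one_div_of_le
    · positivity
    · have : (cpl x.w y.w : ℝ) ≤ N := by exact_mod_cast hN
      linarith
  rw [dist_def]; linarith

theorem isClosed_all (s : Set Node) : IsClosed s := by
  rw [← isOpen_compl_iff, Metric.isOpen_iff]
  intro x hx
  refine ⟨1 / ((x.w.length : ℝ) + 1), by positivity, ?_⟩
  intro y hy
  rw [Metric.mem_ball, dist_comm] at hy
  by_cases h : x = y
  · rw [← h]; exact hx
  · exact absurd (dist_lower h (cpl_le_left _ _)) (not_le.mpr hy)

instance : CompleteSpace Node := by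
  apply Metric.complete_of_cauchySeq_tendsto
  intro u hu
  obtain ⟨R, _, hR⟩ := cauchySeq_bdd hu
  obtain ⟨N, hN⟩ := (tendsto_atTop_atTop.mp hs_tendsto) (R + hs (u 0).w.length + 1)
  have hlen : ∀ n, (u n).w.length ≤ N := by
    intro n
    by_contra hlt
    have h1 := hN (u n).w.length (by omega)
    have h2 := hR n 0
    rw [dist_def] at h2
    unfold td at h2
    have h3 := hs_mono (cpl_le_right (u n).w (u 0).w)
    linarith
  obtain ⟨M, hM⟩ := (Metric.cauchySeq_iff'.mp hu) (1 / ((N : ℝ) + 1)) (by positivity)
  refine ⟨u M, ?_⟩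
  apply tendsto_atTop_of_eventually_const (i₀ := M)
  intro n hn
  by_contra hne
  exact absurd (dist_lower hne ((cpl_le_left _ _).trans (hlen n))) (not_le.mpr (hM n hn))

instance : Nonempty Node := ⟨Node.mk []⟩

/-- The nodes that are not ancestors of `x` (a node being an ancestor of itself). -/
def T (x : Node) : Set Node := {z | cpl z.w x.w < z.w.length}

theorem not_mem_T (x : Node) : x ∉ T x := by
  intro h
  have h1 : cpl x.w x.w < x.w.length := h
  rw [cpl_self] at h1
  exact lt_irrefl _ h1

theorem T_nonempty (x : Node) : (T x).Nonempty := by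
  refine ⟨Node.mk (x.w ++ [true]), ?_⟩
  show cpl (x.w ++ [true]) x.w < (x.w ++ [true]).length
  rw [cpl_comm, cpl_append_single]
  simp

theorem exists_child (z y : List Bool) :
    ∃ b : Bool, cpl (z ++ [b]) y < (z ++ [b]).length := by
  by_contra h
  push Not at h
  have h1 := h true
  have h2 := h false
  have h3 := cpl_ultra (z ++ [true]) y (z ++ [false])
  rw [cpl_append_true_false, cpl_comm y] at h3
  simp only [List.length_append, List.length_singleton] at h1 h2
  omega

theorem td_child (z : List Bool) (b : Bool) : td z (z ++ [b]) = 1 / ((z.length : ℝ) + 1) := by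
  unfold td
  rw [cpl_append_single, List.length_append, List.length_singleton, hs_succ]
  ring

theorem key {x y : Node} (h : x ≠ y) (z : Node) (hz : z ∈ T x) :
    ∃ w ∈ T y, dist z w ≤ dist x y / (1 + dist x y) := by
  have hd : 0 ≤ dist x y := dist_nonneg
  by_cases hzy : z ∈ T y
  · refine ⟨z, hzy, ?_⟩
    rw [dist_self]; positivity
  · have h1 : cpl z.w x.w < z.w.length := hz
    have h2 : z.w.length ≤ cpl z.w y.w := not_lt.mp hzy
    have h3 := cpl_ultra z.w y.w x.w
    rw [cpl_comm y.w x.w] at h3
    have h4 : cpl x.w y.w + 1 ≤ z.w.length := by omega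
    obtain ⟨k, hk⟩ : ∃ k, z.w.length = k + 1 := ⟨z.w.length - 1, by omega⟩
    have h5 : 1 / ((k : ℝ) + 1) ≤ dist x y := dist_lower h (by omega)
    obtain ⟨b, hb⟩ := exists_child z.w y.w
    refine ⟨Node.mk (z.w ++ [b]), hb, ?_⟩
    have h6 : dist z (Node.mk (z.w ++ [b])) = 1 / ((z.w.length : ℝ) + 1) := td_child z.w b
    rw [h6, hk]
    push_cast
    have hk0 : (0 : ℝ) < (k : ℝ) + 1 := by positivity
    rw [div_le_iff₀ hk0] at h5
    rw [div_le_div_iff₀ (by positivity) (by positivity)]
    nlinarith

theorem hausdorff_le {x y : Node} (h : x ≠ y) :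
    Metric.hausdorffEDist (T x) (T y) ≤ ENNReal.ofReal (dist x y / (1 + dist x y)) := by
  apply Metric.hausdorffEDist_le_of_mem_edist
  · intro z hz
    obtain ⟨w, hw, hzw⟩ := key h z hz
    exact ⟨w, hw, by rw [edist_dist]; exact ENNReal.ofReal_le_ofReal hzw⟩
  · intro z hz
    obtain ⟨w, hw, hzw⟩ := key h.symm z hz
    rw [dist_comm y x] at hzw
    exact ⟨w, hw, by rw [edist_dist]; exact ENNReal.ofReal_le_ofReal hzw⟩

end Pool.Agent.Work.MP_3789da_an
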