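import Mathlib

/-!
Set-valued maps `x ↦ {z ∈ C | r z ≤ dist x z}`: an abstract criterion, and the example in three
dimensions with the supremum norm.
-/

set_option autoImplicit false

namespace Pool.Agent.Work.MP_3789da_an.Ban

open Set

/-- The modulus. -/
noncomputable def om (t : ℝ) : ℝ := t / 2 + 2 * t / (4 + t)

theorem om_mono {s t : ℝ} (hs : 0 ≤ s) (h : s ≤ t) : om s ≤ om t := by
  unfold om
  have h1 : 2 * s / (4 + s) ≤ 2 * t / (4 + t) := by
    rw [div_le_div_iff₀ (by linarith) (by linarith)]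
    nlinarith
  linarith

theorem om_mul {t : ℝ} (ht : 0 ≤ t) : om t * (4 + t) = 4 * t + t ^ 2 / 2 := by
  unfold om
  have : 4 + t ≠ 0 := by linarith
  field_simp
  ring

theorem om_half {t : ℝ} (ht : 0 ≤ t) : t / 2 ≤ om t := by
  unfold om
  have : 0 ≤ 2 * t / (4 + t) := by positivity
  linarith

theorem om_lt {t : ℝ} (ht : 0 < t) : om t < t := by
  have h := om_mul ht.le
  by_contra h1
  have h2 : t * (4 + t) ≤ om t * (4 + t) := by
    have := not_lt.1 h1
    gcongr
  nlinarith

theorem om_sq {t : ℝ} (ht : 0 ≤ t) : t ≤ om t + om t ^ 2 := by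
  have h := om_mul ht
  have h1 := om_half ht
  have h2 : (t / 2) ^ 2 ≤ om t ^ 2 := by gcongr
  have h3 : t * (4 + t) ≤ (om t + om t ^ 2) * (4 + t) := by nlinarith
  exact le_of_mul_le_mul_right h3 (by linarith)

theorem phi_L {s : ℝ} (hs : 0 < s) :
    ∃ δ : ℝ, 0 < δ ∧ ∀ t ∈ Icc s (s + δ), 3 * t / 4 + t / (4 + t) ≤ s := by
  have h1 : s / (4 + s) < s / 4 := div_lt_div_of_pos_left hs (by norm_num) (by linarith)
  refine ⟨s / 4 - s / (4 + s), by linarith, fun t ht => ?_⟩
  have h2 := ht.1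
  have h3 : t / (4 + t) - s / (4 + s) ≤ (t - s) / 4 := by
    rw [div_sub_div _ _ (by linarith) (by linarith), div_le_div_iff₀ (by nlinarith) (by norm_num)]
    have : 0 ≤ (t - s) * (4 * s + 4 * t + t * s) := by
      have : 0 ≤ t := by linarith
      have : 0 ≤ t - s := by linarith
      positivity
    nlinarith
  linarith [ht.2]

section

variable {X : Type} [MetricSpace X]

/-- The set-valued map. -/
def Tm (C : Set X) (r : X → ℝ) (x : X) : Set X := {z | z ∈ C ∧ r z ≤ dist x z}

/-- Every point that is too close to `y` can be moved away from it cheaply. -/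
def Mv (C : Set X) (r : X → ℝ) : Prop :=
  ∀ y, ∀ z ∈ C, 0 < r z - dist y z → ∃ z' ∈ Tm C r y, dist z z' ≤ om (r z - dist y z)

theorem Mv.near {C : Set X} {r : X → ℝ} (h : Mv C r) (x y : X) :
    ∀ z ∈ Tm C r x, ∃ z' ∈ Tm C r y, edist z z' ≤ ENNReal.ofReal (om (dist x y)) := by
  intro z hz
  by_cases h1 : r z ≤ dist y z
  · exact ⟨z, ⟨hz.1, h1⟩, by simp⟩
  · have h2 : 0 < r z - dist y z := sub_pos.2 (not_le.1 h1)
    obtain ⟨z', hz', h3⟩ := h y z hz.1 h2
    refine ⟨z', hz', ?_⟩
    rw [edist_dist]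
    refine ENNReal.ofReal_le_ofReal (h3.trans (om_mono h2.le ?_))
    have := dist_triangle x y z
    have := hz.2
    linarith

theorem Mv.haus {C : Set X} {r : X → ℝ} (h : Mv C r) (x y : X)
    (hne : x ≠ y) : Metric.hausdorffEDist (Tm C r x) (Tm C r y) <
      ENNReal.ofReal (3 * dist x y / 4 + dist x y / (4 + dist x y)) := by
  have hd : 0 < dist x y := dist_pos.2 hne
  refine lt_of_le_of_lt (Metric.hausdorffEDist_le_of_mem_edist (h.near x y) ?_) ?_
  · rw [dist_comm]; exact h.near y x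
  · rw [ENNReal.ofReal_lt_ofReal_iff (by positivity)]
    have h1 := om_lt hd
    unfold om at h1 ⊢
    rw [mul_div_assoc] at h1 ⊢
    linarith

theorem Mv.ne {C : Set X} {r : X → ℝ} (h : Mv C r) (hC : C.Nonempty) (x : X) :
    (Tm C r x).Nonempty := by
  obtain ⟨z, hz⟩ := hC
  by_cases h1 : r z ≤ dist x z
  · exact ⟨z, hz, h1⟩
  · obtain ⟨z', hz', -⟩ := h x z hz (sub_pos.2 (not_le.1 h1))
    exact ⟨z', hz'⟩

theorem Tm_closed {C : Set X} {r : X → ℝ} (hC : IsClosed C) (hr : Continuous r) (x : X) :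
    IsClosed (Tm C r x) :=
  hC.inter (isClosed_le hr (continuous_const.dist continuous_id))

theorem Tm_not {C : Set X} {r : X → ℝ} (hr : ∀ z ∈ C, 0 < r z) (x : X) : x ∉ Tm C r x :=
  fun h => by
    have := h.2
    rw [dist_self] at this
    linarith [hr x h.1]

end

/-- The gap function in three dimensions. -/
noncomputable def r3 (z : Fin 3 → ℝ) : ℝ := Real.exp (-∑ i, z i)

theorem r3_cont : Continuous r3 := by
  unfold r3
  fun_prop

theorem mv3 : Mv (univ : Set (Fin 3 → ℝ)) r3 := by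
  intro y z _ hκ
  set κ := r3 z - dist y z with hκd
  set δ := om κ with hδ
  have hδ0 : 0 ≤ δ := le_trans (by linarith) (om_half hκ.le)
  obtain ⟨i, hi⟩ := Finite.exists_max fun i => dist (y i) (z i)
  have hD : dist y z ≤ dist (y i) (z i) := (dist_pi_le_iff dist_nonneg).2 hi
  let e : Fin 3 → ℝ := fun j => if j = i ∧ z i < y i then -δ else δ
  have he : δ ≤ ∑ j, e j := by
    have h1 : ∑ j, (if j = i then -δ else δ) ≤ ∑ j, e j := by
      refine Finset.sum_le_sum fun j _ => ?_
      simp only [e]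
      split_ifs with h2 h3 h3
      · exact le_rfl
      · linarith
      · exact absurd h3.1 h2
      · exact le_rfl
    refine le_trans (le_of_eq ?_) h1
    rw [Fin.sum_univ_three]
    fin_cases i <;> simp
  refine ⟨z + e, ⟨mem_univ _, ?_⟩, ?_⟩
  · have h1 : dist y z + δ ≤ dist y (z + e) := by
      refine le_trans ?_ (dist_le_pi_dist y (z + e) i)
      rw [Real.dist_eq] at hD
      rw [Real.dist_eq, Pi.add_apply]
      simp only [e, true_and]
      split_ifs with h2
      · rw [abs_of_pos (by linarith)] at hD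
        refine le_trans ?_ (le_abs_self _)
        linarith
      · rw [abs_of_nonpos (by linarith)] at hD
        refine le_trans ?_ (neg_le_abs _)
        linarith
    have h2 : r3 (z + e) * (1 + δ) ≤ r3 z := by
      unfold r3
      simp only [Pi.add_apply, Finset.sum_add_distrib]
      have h3 : 1 + δ ≤ Real.exp (∑ j, e j) := by
        have := Real.add_one_le_exp (∑ j, e j)
        linarith
      calc _ ≤ Real.exp (-(∑ j, z j + ∑ j, e j)) * Real.exp (∑ j, e j) := by gcongr
        _ = _ := by rw [← Real.exp_add]; congr 1; ring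
    have h3 := om_sq hκ.le
    have h4 : 0 ≤ dist y z := dist_nonneg
    refine le_trans ?_ h1
    refine le_of_mul_le_mul_right (h2.trans ?_) (by linarith : (0 : ℝ) < 1 + δ)
    nlinarith
  · refine (dist_pi_le_iff hδ0).2 fun j => ?_
    rw [Real.dist_eq, Pi.add_apply]
    simp only [e]
    split_ifs <;> simp [abs_of_nonneg hδ0]

/-- Among consecutive pieces of mass `δ` one is good. -/
theorem pieces {M H : ℝ → ℝ} (hM : Continuous M) {δ c : ℝ} (hδ : 0 ≤ δ) (hc : 0 ≤ c)
    (hle : ∀ a, a ≤ 1 → H 1 - H a ≤ M 1 - M a) : ∀ (k : ℕ) (a : ℝ), a ≤ 1 →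
    M 1 - M a ≤ (k + 1) * δ → δ + k * c < H 1 - H a →
    ∃ a' b', a ≤ a' ∧ a' ≤ b' ∧ b' ≤ 1 ∧ M b' - M a' = δ ∧ c < H b' - H a' := by
  intro k
  induction k with
  | zero =>
    intro a ha h1 h2
    have := hle a ha
    simp only [Nat.cast_zero] at h1 h2
    linarith
  | succ k ih =>
    intro a ha h1 h2
    have h3 := hle a ha
    push_cast at h1 h2
    have h4 : 0 ≤ ((k : ℝ) + 1) * c := by positivity
    obtain ⟨b, hb, e⟩ := intermediate_value_Icc ha hM.continuousOn
      (show M a + δ ∈ Icc (M a) (M 1) from ⟨by linarith, by linarith⟩)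
    by_cases h5 : c < H b - H a
    · exact ⟨a, b, le_rfl, hb.1, hb.2, by linarith, h5⟩
    · obtain ⟨a', b', h6, h7⟩ := ih b hb.2 (by linarith) (by linarith)
      exact ⟨a', b', hb.1.trans h6, h7⟩

end Pool.Agent.Work.MP_3789da_an.Ban
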