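import Pool.Agent.Work.MP_3789da_an.Ban1

/-!
The example on the probability densities on the unit interval.
-/

set_option autoImplicit false

namespace Pool.Agent.Work.MP_3789da_an.Ban

open Set MeasureTheory

/-- Lebesgue measure on the unit interval. -/
noncomputable abbrev mu : Measure ℝ := volume.restrict (Ioc (0 : ℝ) 1)

theorem ae_mem : ∀ᵐ t ∂mu, t ∈ Ioc (0 : ℝ) 1 := ae_restrict_mem measurableSet_Ioc

theorem int_mul {f : ℝ → ℝ} (hf : Integrable f mu) : Integrable (fun t => t * f t) mu := by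
  refine hf.bdd_mul (c := 1) measurable_id.aestronglyMeasurable ?_
  filter_upwards [ae_mem] with t ht
  rw [Real.norm_eq_abs, abs_of_pos ht.1]
  exact ht.2

theorem iadd {f g : ℝ → ℝ} (hf : Integrable f mu) (hg : Integrable g mu) :
    Integrable (fun t => f t + g t) mu := hf.add hg

theorem isub {f g : ℝ → ℝ} (hf : Integrable f mu) (hg : Integrable g mu) :
    Integrable (fun t => f t - g t) mu := hf.sub hg

/-- The primitive. -/
noncomputable def pr (f : ℝ → ℝ) (t : ℝ) : ℝ := ∫ x in (0 : ℝ)..t, f x ∂mu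

theorem pr_cont {f : ℝ → ℝ} (hf : Integrable f mu) : Continuous (pr f) :=
  intervalIntegral.continuous_primitive (fun _ _ => hf.intervalIntegrable) 0

theorem pr_zero (f : ℝ → ℝ) : pr f 0 = 0 := intervalIntegral.integral_same

theorem pr_sub {f : ℝ → ℝ} (hf : Integrable f mu) {a b : ℝ} (h : a ≤ b) :
    pr f b - pr f a = ∫ x, (Ioc a b).indicator f x ∂mu := by
  rw [integral_indicator measurableSet_Ioc, ← intervalIntegral.integral_of_le h]
  exact intervalIntegral.integral_interval_sub_left hf.intervalIntegrable hf.intervalIntegrable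

theorem pr_one {f : ℝ → ℝ} (hf : Integrable f mu) : pr f 1 - pr f 0 = ∫ x, f x ∂mu := by
  rw [pr_sub hf zero_le_one]
  refine integral_congr_ae ?_
  filter_upwards [ae_mem] with t ht
  exact indicator_of_mem ht f

theorem int_const {η : ℝ} (h0 : 0 ≤ η) (h1 : η ≤ 1) (β : ℝ) :
    ∫ x, (Ioc 0 η).indicator (fun _ => β) x ∂mu = η * β := by
  rw [integral_indicator measurableSet_Ioc, Measure.restrict_restrict measurableSet_Ioc,
    inter_eq_left.2 (Ioc_subset_Ioc_right h1)]
  simp [h0]

theorem move {y z : ℝ → ℝ} (hy : Integrable y mu) (hz : Integrable z mu)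
    (z0 : 0 ≤ᵐ[mu] z) (z1 : ∫ t, z t ∂mu = 1) {κ : ℝ}
    (hκd : κ = (∫ t, t * z t ∂mu) ^ 2 - ∫ t, |y t - z t| ∂mu) (hκ : 0 < κ) :
    ∃ z' : ℝ → ℝ, Integrable z' mu ∧ 0 ≤ᵐ[mu] z' ∧ ∫ t, z' t ∂mu = 1 ∧
      (∫ t, t * z' t ∂mu) ^ 2 ≤ ∫ t, |y t - z' t| ∂mu ∧ ∫ t, |z t - z' t| ∂mu ≤ om κ := by
  obtain ⟨δ, hδ⟩ : ∃ δ, δ = om κ / 2 := ⟨_, rfl⟩
  have hδ0 : 0 < δ := by have := om_half hκ.le; linarith
  have hδ1 : δ < κ / 2 := by have := om_lt hκ; linarith
  have hδ2 : 2 * δ * (4 + κ) = 4 * κ + κ ^ 2 / 2 := by rw [← om_mul hκ.le, hδ]; ring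
  have ia : Integrable (fun t => |y t - z t|) mu := (hy.sub hz).abs
  have iy : Integrable (fun t => |y t|) mu := hy.abs
  obtain ⟨s, hs⟩ : ∃ s, s = ∫ t, t * z t ∂mu := ⟨_, rfl⟩
  obtain ⟨D, hD⟩ : ∃ D, D = ∫ t, |y t - z t| ∂mu := ⟨_, rfl⟩
  rw [← hs, ← hD] at hκd
  have hD0 : 0 ≤ D := hD ▸ integral_nonneg fun _ => abs_nonneg _
  have hs0 : 0 ≤ s := by
    rw [hs]
    refine integral_nonneg_of_ae ?_
    filter_upwards [ae_mem, z0] with t ht h0
    exact mul_nonneg ht.1.le h0
  have hs1 : s ≤ 1 := by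
    rw [hs, ← z1]
    refine integral_mono_ae (int_mul hz) hz ?_
    filter_upwards [ae_mem, z0] with t ht h0
    exact mul_le_of_le_one_left h0 ht.2
  have hκ1 : κ ≤ 1 := by nlinarith
  have hy1 : 1 - D ≤ ∫ t, |y t| ∂mu := by
    rw [← z1, hD, ← integral_sub hz ia]
    refine integral_mono (isub hz ia) iy fun t => ?_
    have h1 := neg_le_abs (y t - z t)
    have h2 := le_abs_self (y t)
    simp only
    linarith
  obtain ⟨h, hh⟩ : ∃ h : ℝ → ℝ,
    h = fun t => s * (t * z t) + (1 / 2) * (|y t| - |y t - z t| - z t) := ⟨_, rfl⟩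
  have i1 : Integrable (fun t => s * (t * z t)) mu := (int_mul hz).const_mul s
  have i2 : Integrable (fun t => |y t| - |y t - z t| - z t) mu := isub (isub iy ia) hz
  have ih : Integrable h mu := hh ▸ iadd i1 (i2.const_mul _)
  have h1 : κ ≤ ∫ t, h t ∂mu := by
    rw [hh]
    simp only
    rw [integral_add i1 (i2.const_mul _), integral_const_mul, integral_const_mul,
      integral_sub (isub iy ia) hz, integral_sub iy ia, z1, ← hs, ← hD]
    nlinarith
  have hle : h ≤ᵐ[mu] z := by
    filter_upwards [ae_mem, z0] with t ht h0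
    have h0' : 0 ≤ z t := h0
    have h2 : t * z t ≤ z t := mul_le_of_le_one_left h0 ht.2
    have h3 : s * (t * z t) ≤ t * z t := mul_le_of_le_one_left (mul_nonneg ht.1.le h0) hs1
    have h4 : |y t| ≤ |y t - z t| + z t :=
      abs_le.2 ⟨by linarith [neg_le_abs (y t - z t)], by linarith [le_abs_self (y t - z t)]⟩
    rw [hh]
    simp only
    linarith
  obtain ⟨a, b, -, hab, -, hM, hH⟩ := pieces (M := pr z) (H := pr h) (pr_cont hz) hδ0.le
    (c := δ * κ / 2) (by positivity)
    (fun a ha => by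
      rw [pr_sub ih ha, pr_sub hz ha]
      refine integral_mono_ae (ih.indicator measurableSet_Ioc) (hz.indicator measurableSet_Ioc) ?_
      filter_upwards [hle] with t ht
      exact indicator_le_indicator ht)
    ⌊1 / δ⌋₊ 0 zero_le_one
    (by
      rw [pr_one hz, z1]
      exact ((div_lt_iff₀ hδ0).1 (Nat.lt_floor_add_one (1 / δ))).le)
    (by
      rw [pr_one ih]
      have h2 : (⌊1 / δ⌋₊ : ℝ) * δ ≤ 1 := (le_div_iff₀ hδ0).1 (Nat.floor_le (by positivity))
      nlinarith)
  rw [pr_sub hz hab] at hM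
  rw [pr_sub ih hab] at hH
  obtain ⟨η, hη0, hη1, hη2, hη3⟩ : ∃ η : ℝ, 0 < η ∧ η ≤ 1 ∧ δ * η ≤ κ ^ 2 / 64 ∧
      pr (fun t => |y t|) η ≤ κ ^ 2 / 64 := by
    have c1 : ∀ᶠ η in nhds (0 : ℝ), pr (fun t => |y t|) η < κ ^ 2 / 64 :=
      (pr_cont iy).continuousAt.eventually_lt continuousAt_const (by rw [pr_zero]; positivity)
    have c2 : ∀ᶠ η in nhds (0 : ℝ), δ * η < κ ^ 2 / 64 :=
      ContinuousAt.eventually_lt (f := fun η => δ * η) (by fun_prop) continuousAt_const
        (by simp only [mul_zero]; positivity)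
    have c3 : ∀ᶠ η in nhds (0 : ℝ), η < 1 := eventually_lt_nhds zero_lt_one
    obtain ⟨η, ⟨d1, d2, d3⟩, d4⟩ :=
      (((c1.and (c2.and c3)).filter_mono nhdsWithin_le_nhds).and
        (self_mem_nhdsWithin (a := (0 : ℝ)) (s := Ioi 0))).exists
    exact ⟨η, d4, d3.le, d2.le, d1.le⟩
  have hY : ∫ t, (Ioc 0 η).indicator (fun t => |y t|) t ∂mu ≤ κ ^ 2 / 64 := by
    rw [← pr_sub iy hη0.le, pr_zero, sub_zero]; exact hη3
  have hβ : 0 < δ / η := by positivity
  have hS : ∫ t, (Ioc 0 η).indicator (fun _ => δ / η) t ∂mu = δ := by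
    rw [int_const hη0.le hη1]; field_simp
  have iS : Integrable ((Ioc 0 η).indicator fun _ : ℝ => δ / η) mu :=
    (integrable_const _).indicator measurableSet_Ioc
  have iB : Integrable ((Ioc a b).indicator z) mu := hz.indicator measurableSet_Ioc
  have iH : Integrable ((Ioc a b).indicator h) mu := ih.indicator measurableSet_Ioc
  have iY : Integrable ((Ioc 0 η).indicator fun t => |y t|) mu := iy.indicator measurableSet_Ioc
  have iA : Integrable ((Ioc a b).indicator fun t => t * z t) mu :=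
    (int_mul hz).indicator measurableSet_Ioc
  obtain ⟨A, hA⟩ : ∃ A, A = ∫ t, (Ioc a b).indicator (fun t => t * z t) t ∂mu := ⟨_, rfl⟩
  have hA0 : 0 ≤ A := by
    rw [hA]
    refine integral_nonneg_of_ae ?_
    filter_upwards [ae_mem, z0] with t ht h0
    simp only [indicator, Pi.zero_apply]
    split_ifs
    exacts [mul_nonneg ht.1.le h0, le_rfl]
  have hA1 : A ≤ δ := by
    rw [hA, ← hM]
    refine integral_mono_ae iA iB ?_
    filter_upwards [ae_mem, z0] with t ht h0
    exact indicator_le_indicator (mul_le_of_le_one_left h0 ht.2)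
  obtain ⟨z', hz'⟩ : ∃ z' : ℝ → ℝ, z' = fun t =>
    z t - (Ioc a b).indicator z t + (Ioc 0 η).indicator (fun _ => δ / η) t := ⟨_, rfl⟩
  have iz : Integrable z' mu := hz' ▸ (hz.sub iB).add iS
  have z0' : 0 ≤ᵐ[mu] z' := by
    filter_upwards [z0] with t h0
    have h0' : 0 ≤ z t := h0
    rw [hz']
    simp only [indicator, Pi.zero_apply]
    split_ifs <;> linarith
  refine ⟨z', iz, z0', ?_, ?_, ?_⟩
  · rw [hz']
    simp only
    rw [integral_add (isub hz iB) iS, integral_sub hz iB, z1, hM, hS]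
    ring
  · have k0 : 0 ≤ ∫ t, t * z' t ∂mu := by
      refine integral_nonneg_of_ae ?_
      filter_upwards [ae_mem, z0'] with t ht h0
      exact mul_nonneg ht.1.le h0
    have k1 : ∫ t, t * z' t ∂mu ≤ ∫ t, (t * z t - (Ioc a b).indicator (fun t => t * z t) t +
        η * (Ioc 0 η).indicator (fun _ => δ / η) t) ∂mu := by
      refine integral_mono (int_mul iz) (iadd (isub (int_mul hz) iA) (iS.const_mul _)) fun t => ?_
      rw [hz']
      simp only [indicator]
      split_ifs with e1 e2 e2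
      · have e3 : t * (δ / η) ≤ η * (δ / η) := mul_le_mul_of_nonneg_right e2.2 hβ.le
        linarith
      · linarith
      · have e3 : t * (δ / η) ≤ η * (δ / η) := mul_le_mul_of_nonneg_right e2.2 hβ.le
        linarith
      · linarith
    rw [integral_add (isub (int_mul hz) iA) (iS.const_mul _), integral_sub (int_mul hz) iA,
      integral_const_mul, hS, ← hs, ← hA] at k1
    have k2 : ∫ t, (|y t - z t| + (2 * (Ioc a b).indicator h t + (Ioc a b).indicator z t -
        2 * s * (Ioc a b).indicator (fun t => t * z t) t) +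
        ((Ioc 0 η).indicator (fun _ => δ / η) t -
          2 * (Ioc 0 η).indicator (fun t => |y t|) t)) ∂mu ≤ ∫ t, |y t - z' t| ∂mu := by
      refine integral_mono_ae (iadd (iadd ia (isub (iadd (iH.const_mul _) iB) (iA.const_mul _)))
        (isub iS (iY.const_mul _))) (hy.sub iz).abs ?_
      filter_upwards [z0] with t h0z
      have h0z' : 0 ≤ z t := h0z
      have y1 := le_abs_self (y t)
      have y2 := abs_nonneg (y t)
      rw [hz', hh]
      simp only [indicator]
      split_ifs with e1 e2 e2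
      · have e4 := neg_le_abs (y t - (z t - z t + δ / η))
        linarith
      · rw [sub_self, add_zero, sub_zero]
        linarith
      · have e4 := neg_le_abs (y t - (z t - 0 + δ / η))
        have e5 : |y t - z t| ≤ |y t| + |y t| - (y t - z t) := abs_le.2 ⟨by linarith, by linarith⟩
        linarith
      · simp only [sub_zero, add_zero, mul_zero]
        linarith
    rw [integral_add (iadd ia (isub (iadd (iH.const_mul _) iB) (iA.const_mul _)))
        (isub iS (iY.const_mul _)),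
      integral_add ia (isub (iadd (iH.const_mul _) iB) (iA.const_mul _)),
      integral_sub (iadd (iH.const_mul _) iB) (iA.const_mul _), integral_add (iH.const_mul _) iB,
      integral_sub iS (iY.const_mul _), integral_const_mul, integral_const_mul,
      integral_const_mul, hM, hS, ← hD, ← hA] at k2
    refine le_trans ?_ k2
    obtain ⟨u, hu⟩ : ∃ u, u = δ * η := ⟨_, rfl⟩
    rw [mul_comm η δ, ← hu] at k1
    rw [← hu] at hη2
    have hu0 : 0 ≤ u := by rw [hu]; positivity
    have hu1 : u ≤ 1 := by nlinarith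
    have k3 : (∫ t, t * z' t ∂mu) ^ 2 ≤ (s - A + u) ^ 2 := by gcongr
    have k4 : A ^ 2 ≤ δ * κ / 2 := by nlinarith
    have k5 : (s - A) * u ≤ u := by nlinarith
    have k6 : u ^ 2 ≤ u := by nlinarith
    nlinarith
  · have key : ∫ t, |z t - z' t| ∂mu ≤
        ∫ t, ((Ioc a b).indicator z t + (Ioc 0 η).indicator (fun _ => δ / η) t) ∂mu := by
      refine integral_mono_ae (hz.sub iz).abs (iB.add iS) ?_
      filter_upwards [z0] with t h0
      have h0' : 0 ≤ z t := h0
      rw [hz']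
      simp only [indicator]
      split_ifs <;> exact abs_le.2 ⟨by linarith, by linarith⟩
    rw [integral_add iB iS, hM, hS] at key
    linarith

/-- The probability densities. -/
def Den : Set (Lp ℝ 1 mu) := {f | 0 ≤ᵐ[mu] f ∧ ∫ t, f t ∂mu = 1}

/-- The first moment. -/
noncomputable def r1 (f : Lp ℝ 1 mu) : ℝ := ∫ t, t * f t ∂mu

theorem dist_eq (f g : Lp ℝ 1 mu) : dist f g = ∫ t, |f t - g t| ∂mu := by
  rw [L1.dist_eq_integral_dist]
  simp only [Real.dist_eq]

theorem r1_cont : Continuous r1 := by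
  refine (LipschitzWith.of_dist_le_mul (K := 1) fun f g => ?_).continuous
  have hf := L1.integrable_coeFn f
  have hg := L1.integrable_coeFn g
  rw [NNReal.coe_one, one_mul, dist_eq, Real.dist_eq, r1, r1,
    ← integral_sub (int_mul hf) (int_mul hg)]
  refine abs_integral_le_integral_abs.trans
    (integral_mono_ae ((int_mul hf).sub (int_mul hg)).abs (hf.sub hg).abs ?_)
  filter_upwards [ae_mem] with t ht
  rw [← mul_sub, abs_mul, abs_of_pos ht.1]
  exact mul_le_of_le_one_left (abs_nonneg _) ht.2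

theorem r1_pos {f : Lp ℝ 1 mu} (hf : f ∈ Den) : 0 < r1 f := by
  have h0 : 0 ≤ᵐ[mu] fun t => t * f t := by
    filter_upwards [ae_mem, hf.1] with t ht h
    exact mul_nonneg ht.1.le h
  refine lt_of_le_of_ne (integral_nonneg_of_ae h0) fun e => ?_
  have h1 := (integral_eq_zero_iff_of_nonneg_ae h0 (int_mul (L1.integrable_coeFn f))).1 e.symm
  have h2 : ∫ t, f t ∂mu = 0 := by
    refine integral_eq_zero_of_ae ?_
    filter_upwards [ae_mem, h1] with t ht h
    exact (mul_eq_zero.1 h).resolve_left ht.1.ne'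
  rw [hf.2] at h2
  exact one_ne_zero h2

theorem den_closed : IsClosed Den := by
  have : Den = Ici 0 ∩ {f : Lp ℝ 1 mu | ∫ t, f t ∂mu = 1} := by
    ext f
    simp only [Den, mem_ofPred_eq, mem_inter_iff, mem_Ici, Lp.coeFn_nonneg]
  rw [this]
  exact isClosed_Ici.inter (isClosed_eq continuous_integral continuous_const)

theorem den_sub {f : Lp ℝ 1 mu} (hf : f ∈ Den) : 0 ≤ f ∧ ‖f‖ = 1 := by
  refine ⟨(Lp.coeFn_nonneg f).1 hf.1, ?_⟩
  rw [L1.norm_eq_integral_norm, ← hf.2]
  refine integral_congr_ae ?_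
  filter_upwards [hf.1] with t ht
  exact Real.norm_of_nonneg ht

theorem den_mk {f : ℝ → ℝ} (hf : Integrable f mu) (h0 : 0 ≤ᵐ[mu] f) (h1 : ∫ t, f t ∂mu = 1) :
    hf.toL1 f ∈ Den := by
  constructor
  · filter_upwards [hf.coeFn_toL1, h0] with t e h
    rw [e]; exact h
  · rw [integral_congr_ae hf.coeFn_toL1, h1]

theorem den_ne : Den.Nonempty :=
  ⟨_, den_mk (integrable_const (1 : ℝ)) (Filter.Eventually.of_forall fun _ => zero_le_one)
    (by simp)⟩

theorem mv1 : Mv Den fun f => r1 f ^ 2 := by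
  intro y z hz hκ
  obtain ⟨z', iz, h0, h1, h2, h3⟩ := move (L1.integrable_coeFn y) (L1.integrable_coeFn z) hz.1
    hz.2 (κ := r1 z ^ 2 - dist y z) (by rw [dist_eq, r1]) hκ
  have e := iz.coeFn_toL1
  have e1 : ∀ f : Lp ℝ 1 mu, dist f (iz.toL1 z') = ∫ t, |f t - z' t| ∂mu := fun f => by
    rw [dist_eq]
    refine integral_congr_ae ?_
    filter_upwards [e] with t h
    rw [h]
  have e2 : r1 (iz.toL1 z') = ∫ t, t * z' t ∂mu := by
    refine integral_congr_ae ?_
    filter_upwards [e] with t h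
    rw [h]
  refine ⟨iz.toL1 z', ⟨den_mk iz h0 h1, ?_⟩, by rw [e1]; exact h3⟩
  simp only
  rw [e1, e2]
  exact h2

end Pool.Agent.Work.MP_3789da_an.Ban
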