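import Mathlib

/-!
Normed spaces: the fixed point theorem fails in dimension at least two and holds on a line.
-/

set_option autoImplicit false

namespace Pool.Agent.Work.MP_3789da_an.Nrm

open Set Filter Topology

universe u

variable {X : Type u} [NormedAddCommGroup X] [NormedSpace ℝ X]

theorem two_fun (h : ¬ ∃ v₀ : X, ∀ v, ∃ r : ℝ, r • v₀ = v) :
    ∃ p q : X →L[ℝ] ℝ, ∀ a b : ℝ, a • p + b • q = 0 → a = 0 ∧ b = 0 := by
  push Not at h
  obtain ⟨v, hv⟩ := h 0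
  have hv0 : ‖v‖ ≠ 0 := by
    rw [norm_ne_zero_iff]
    intro e
    exact hv 0 (by simp [e])
  obtain ⟨u, hu⟩ := h v
  obtain ⟨p, -, hp⟩ := exists_dual_vector ℝ v hv0
  have hp' : p v = ‖v‖ := hp
  have hw0 : ‖u - (p u / ‖v‖) • v‖ ≠ 0 := by
    rw [norm_ne_zero_iff, sub_ne_zero]
    exact (hu _).symm
  obtain ⟨q, -, hq⟩ := exists_dual_vector ℝ _ hw0
  have hq' : q (u - (p u / ‖v‖) • v) = ‖u - (p u / ‖v‖) • v‖ := hq
  have hpw : p (u - (p u / ‖v‖) • v) = 0 := by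
    rw [map_sub, map_smul, hp', smul_eq_mul, div_mul_cancel₀ _ hv0, sub_self]
  refine ⟨p, q, fun a b e => ?_⟩
  have e1 := DFunLike.congr_fun e (u - (p u / ‖v‖) • v)
  rw [_root_.add_apply, _root_.smul_apply,
    _root_.smul_apply, hpw, hq', _root_.zero_apply] at e1
  have hb : b = 0 := by simpa [hw0] using e1
  have e2 := DFunLike.congr_fun e v
  rw [hb, zero_smul, add_zero, _root_.smul_apply, hp',
    _root_.zero_apply] at e2
  exact ⟨by simpa [hv0] using e2, hb⟩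

theorem funcs (h : ¬ ∃ v₀ : X, ∀ v, ∃ r : ℝ, r • v₀ = v) :
    ∃ (f g : X →L[ℝ] ℝ) (k : ℝ), 0 < k ∧ k ≤ 1 ∧ ‖f‖ ≤ 1 ∧ ‖g‖ ≤ 1 ∧
      ∀ s : ℝ, 1 + k * s ^ 2 ≤ ‖f + s • g‖ ^ 2 := by
  obtain ⟨p, q, hpq⟩ := two_fun h
  let L : ℂ → X →L[ℝ] ℝ := fun c => c.re • p + c.im • q
  have hL : Continuous fun c => ‖L c‖ := by
    simp only [L]
    fun_prop
  obtain ⟨c₀, hc₀, hmin⟩ := (isCompact_sphere (0 : ℂ) 1).exists_isMinOn ⟨1, by simp⟩
    hL.continuousOn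
  have hc1 : ‖c₀‖ = 1 := by simpa using hc₀
  have hm : 0 < ‖L c₀‖ := by
    rw [norm_pos_iff]
    intro e
    obtain ⟨e1, e2⟩ := hpq _ _ e
    rw [Complex.ext e1 e2 (w := 0)] at hc1
    simp at hc1
  have hsm : ∀ (t : ℝ) (c : ℂ), L (t * c) = t • L c := by
    intro t c
    simp only [L, Complex.re_ofReal_mul, Complex.im_ofReal_mul, smul_add, smul_smul]
  have hlow : ∀ c : ℂ, c ≠ 0 → ‖L c₀‖ * ‖c‖ ≤ ‖L c‖ := by
    intro c hc
    have hn : 0 < ‖c‖ := norm_pos_iff.2 hc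
    have h1 : ‖L c₀‖ ≤ ‖L (((‖c‖⁻¹ : ℝ) : ℂ) * c)‖ := hmin (by simp [hn.ne'])
    rw [hsm, norm_smul, Real.norm_of_nonneg (by positivity), ← div_eq_inv_mul] at h1
    exact (le_div_iff₀ hn).1 h1
  obtain ⟨m, hmd⟩ : ∃ m, m = ‖L c₀‖ := ⟨_, rfl⟩
  rw [← hmd] at hm hlow
  obtain ⟨g₀, hg₀⟩ : ∃ g₀, g₀ = m⁻¹ • L (c₀ * Complex.I) := ⟨_, rfl⟩
  have hK : 0 < ‖g₀‖ + 1 := by positivity
  refine ⟨m⁻¹ • L c₀, (‖g₀‖ + 1)⁻¹ • g₀, (‖g₀‖ + 1)⁻¹ ^ 2, by positivity, ?_, ?_, ?_, fun s => ?_⟩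
  · exact pow_le_one₀ (by positivity) (inv_le_one_of_one_le₀ (by linarith [norm_nonneg g₀]))
  · rw [norm_smul, Real.norm_of_nonneg (by positivity), ← hmd, inv_mul_cancel₀ hm.ne']
  · rw [norm_smul, Real.norm_of_nonneg (by positivity), ← div_eq_inv_mul, div_le_one hK]
    linarith
  · obtain ⟨t, ht⟩ : ∃ t, t = s * (‖g₀‖ + 1)⁻¹ := ⟨_, rfl⟩
    have e : m⁻¹ • L c₀ + s • (‖g₀‖ + 1)⁻¹ • g₀ = m⁻¹ • L (c₀ * (1 + t * Complex.I)) := by
      rw [smul_smul, ← ht, hg₀]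
      ext x
      simp [L]
      ring
    have hn : ‖c₀ * (1 + t * Complex.I)‖ ^ 2 = 1 + t ^ 2 := by
      rw [norm_mul, hc1, one_mul, Complex.sq_norm, Complex.normSq_apply]
      simp
      ring
    have h0 : c₀ * (1 + t * Complex.I) ≠ 0 := by
      intro e0
      rw [e0, norm_zero] at hn
      nlinarith [sq_nonneg t]
    have h1 := hlow _ h0
    have h2 : ‖c₀ * (1 + t * Complex.I)‖ ≤ ‖m⁻¹ • L (c₀ * (1 + t * Complex.I))‖ := by
      rw [norm_smul, Real.norm_of_nonneg (by positivity), ← div_eq_inv_mul, le_div_iff₀ hm]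
      linarith
    rw [e, ← mul_pow, mul_comm _ s, ← ht, ← hn]
    gcongr

/-- The set-valued map. -/
def Tn (f g : X →L[ℝ] ℝ) (x : X) : Set X := {z | Real.exp (-g z) ≤ |f z - f x|}

theorem move {f g : X →L[ℝ] ℝ} {k : ℝ} (hk : 0 < k) (hk1 : k ≤ 1) (hf : ‖f‖ ≤ 1) (hg : ‖g‖ ≤ 1)
    (hs : ∀ s : ℝ, 1 + k * s ^ 2 ≤ ‖f + s • g‖ ^ 2) (y z : X) {κ : ℝ}
    (hκd : κ = Real.exp (-g z) - |f z - f y|) (hκ : 0 < κ) :
    ∃ z' ∈ Tn f g y, dist z z' ≤ κ / (1 + k * (κ / (1 + κ)) ^ 2 / 4) := by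
  obtain ⟨l, hl⟩ : ∃ l, l = κ / (1 + κ) := ⟨_, rfl⟩
  rw [← hl]
  have hl0 : 0 < l := by rw [hl]; positivity
  have hl1 : l * (1 + κ) = κ := by rw [hl]; field_simp
  have hl2 : l ≤ 1 := by nlinarith
  obtain ⟨c, hc⟩ : ∃ c, c = k * l ^ 2 / 4 := ⟨_, rfl⟩
  rw [← hc]
  have hc0 : 0 < c := by rw [hc]; positivity
  have hc1 : c ≤ 1 / 4 := by
    have : k * l ^ 2 ≤ 1 := mul_le_one₀ hk1 (by positivity) (pow_le_one₀ hl0.le hl2)
    linarith
  obtain ⟨σ, hσ, hσ1⟩ : ∃ σ : ℝ, (σ = 1 ∨ σ = -1) ∧ σ * (f z - f y) = |f z - f y| := by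
    rcases le_total 0 (f z - f y) with h | h
    · exact ⟨1, Or.inl rfl, by rw [one_mul, abs_of_nonneg h]⟩
    · exact ⟨-1, Or.inr rfl, by rw [neg_one_mul, abs_of_nonpos h]⟩
  have hσ2 : σ * σ = 1 := by rcases hσ with rfl | rfl <;> norm_num
  have hσ3 : ∀ t : ℝ, σ * t ≤ |t| := fun t => by
    rcases hσ with rfl | rfl
    · rw [one_mul]; exact le_abs_self t
    · rw [neg_one_mul]; exact neg_le_abs t
  have h1 : 1 + c < ‖f + (σ * l) • g‖ := by
    refine lt_of_pow_lt_pow_left₀ 2 (norm_nonneg _) (lt_of_lt_of_le ?_ (hs _))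
    have : k * (σ * l) ^ 2 = 4 * c := by rw [hc, mul_pow, sq σ, hσ2]; ring
    nlinarith
  obtain ⟨v, hv, h2⟩ : ∃ v : X, ‖v‖ ≤ 1 ∧ 1 + c < σ * f v + l * g v := by
    obtain ⟨x, hx, h2⟩ := (f + (σ * l) • g).exists_lt_apply_of_lt_opNorm h1
    rw [_root_.add_apply, _root_.smul_apply, smul_eq_mul,
      Real.norm_eq_abs, lt_abs] at h2
    rcases hσ with rfl | rfl <;> rcases h2 with h2 | h2
    · exact ⟨x, hx.le, by linarith⟩
    · exact ⟨-x, by rw [norm_neg]; exact hx.le, by rw [map_neg, map_neg]; linarith⟩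
    · exact ⟨-x, by rw [norm_neg]; exact hx.le, by rw [map_neg, map_neg]; linarith⟩
    · exact ⟨x, hx.le, by linarith⟩
  have hb : ∀ F : X →L[ℝ] ℝ, ‖F‖ ≤ 1 → |F v| ≤ 1 := fun F hF =>
    (F.le_opNorm v).trans (mul_le_one₀ hF (norm_nonneg _) hv)
  have hα : σ * f v ≤ 1 := (hσ3 _).trans (hb f hf)
  have hβ1 : g v ≤ 1 := (le_abs_self _).trans (hb g hg)
  have hβ0 : 0 < g v := by
    by_contra h
    have : l * g v ≤ 0 := mul_nonpos_of_nonneg_of_nonpos hl0.le (not_lt.1 h)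
    linarith
  obtain ⟨δ, hδ⟩ : ∃ δ, δ = κ / (1 + c) := ⟨_, rfl⟩
  rw [← hδ]
  have hδ0 : 0 < δ := by rw [hδ]; positivity
  have hδ1 : δ * (1 + c) = κ := by rw [hδ]; field_simp
  refine ⟨z + δ • v, ?_, ?_⟩
  · show Real.exp (-g (z + δ • v)) ≤ |f (z + δ • v) - f y|
    rw [map_add, map_add, map_smul, map_smul, smul_eq_mul, smul_eq_mul]
    refine le_trans ?_ (hσ3 _)
    obtain ⟨t, ht⟩ : ∃ t, t = δ * g v := ⟨_, rfl⟩
    have ht0 : 0 < t := by rw [ht]; positivity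
    have ht1 : t ≤ κ := by rw [ht]; nlinarith
    have h3 : Real.exp (-(g z + t)) * (1 + t) ≤ Real.exp (-g z) := by
      have h4 : 1 + t ≤ Real.exp t := by linarith [Real.add_one_le_exp t]
      calc _ ≤ Real.exp (-(g z + t)) * Real.exp t := by gcongr
        _ = _ := by rw [← Real.exp_add]; congr 1; ring
    have h4 : κ ≤ Real.exp (-g z) := by linarith [abs_nonneg (f z - f y)]
    have h5 : Real.exp (-(g z + t)) ≤ Real.exp (-g z) - l * t := by
      refine le_of_mul_le_mul_right (h3.trans ?_) (by linarith : (0 : ℝ) < 1 + t)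
      have h6 : l * (1 + t) ≤ Real.exp (-g z) := by nlinarith
      nlinarith
    have h6 : δ * (1 + c) ≤ δ * (σ * f v + l * g v) := by gcongr
    rw [← ht]
    have h7 : σ * (f z + δ * f v - f y) = σ * (f z - f y) + δ * (σ * f v) := by ring
    have h8 : δ * (σ * f v + l * g v) = δ * (σ * f v) + l * t := by rw [ht]; ring
    linarith
  · rw [dist_self_add_right, norm_smul, Real.norm_of_nonneg hδ0.le]
    exact mul_le_of_le_one_right hδ0.le hv

/-- The modulus. -/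
noncomputable def om (k d : ℝ) : ℝ := d / (1 + k * (d / (2 + d)) ^ 2 / 4)

theorem om_ge {k κ d : ℝ} (hk : 0 < k) (hk1 : k ≤ 1) (hκ : 0 < κ) (h : κ ≤ d) :
    κ / (1 + k * (κ / (1 + κ)) ^ 2 / 4) ≤ om k d := by
  have hd : 0 < d := hκ.trans_le h
  unfold om
  by_cases h1 : κ ≤ d / 2
  · have h2 : k * (d / (2 + d)) ^ 2 ≤ 1 := mul_le_one₀ hk1 (by positivity)
      (pow_le_one₀ (by positivity) ((div_le_one (by positivity)).2 (by linarith)))
    calc _ ≤ κ := div_le_self hκ.le (le_add_of_nonneg_right (by positivity))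
      _ ≤ d / 2 := h1
      _ ≤ _ := div_le_div_of_nonneg_left hd.le (by positivity) (by linarith)
  · have h2 : d / (2 + d) ≤ κ / (1 + κ) := by
      rw [div_le_div_iff₀ (by positivity) (by positivity)]
      nlinarith
    gcongr

theorem om_lt {k d : ℝ} (hk : 0 < k) (hd : 0 < d) : om k d < d :=
  div_lt_self hd (lt_add_of_pos_right _ (by positivity))

theorem neg (h : ¬ ∃ v₀ : X, ∀ v, ∃ r : ℝ, r • v₀ = v) :
    ∃ (T : X → Set X) (φ : ℝ → ℝ), (∀ x, (T x).Nonempty ∧ IsClosed (T x)) ∧ φ 0 = 0 ∧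
      (∀ s : ℝ, 0 < s → 0 < φ s) ∧
      (∀ s : ℝ, 0 < s → ∃ δ : ℝ, 0 < δ ∧ ∀ t ∈ Icc s (s + δ), φ t ≤ s) ∧
      (∀ x y : X, x ≠ y → Metric.hausdorffEDist (T x) (T y) < ENNReal.ofReal (φ (dist x y))) ∧
      ∀ x, x ∉ T x := by
  obtain ⟨f, g, k, hk, hk1, hf, hg, hs⟩ := funcs h
  have near : ∀ x y : X, ∀ z ∈ Tn f g x, ∃ z' ∈ Tn f g y,
      edist z z' ≤ ENNReal.ofReal (om k (dist x y)) := by
    intro x y z hz
    by_cases h1 : z ∈ Tn f g y
    · exact ⟨z, h1, by simp⟩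
    · have h2 : 0 < Real.exp (-g z) - |f z - f y| := sub_pos.2 (not_le.1 h1)
      obtain ⟨z', hz', h3⟩ := move hk hk1 hf hg hs y z rfl h2
      refine ⟨z', hz', ?_⟩
      rw [edist_dist]
      refine ENNReal.ofReal_le_ofReal (h3.trans (om_ge hk hk1 h2 ?_))
      have h4 : |f y - f x| ≤ dist x y := by
        rw [← map_sub, dist_comm, dist_eq_norm]
        exact (f.le_opNorm _).trans (mul_le_of_le_one_left (norm_nonneg _) hf)
      have h5 := abs_sub_le (f z) (f y) (f x)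
      have h6 : Real.exp (-g z) ≤ |f z - f x| := hz
      linarith
  refine ⟨Tn f g, fun d => (om k d + d) / 2, fun x => ⟨?_, ?_⟩, by simp [om], fun s hs => ?_,
    fun s hs => ?_, fun x y hxy => ?_, fun x hx => ?_⟩
  · obtain ⟨z, hz, -⟩ := move hk hk1 hf hg hs x x rfl (by simpa using Real.exp_pos _)
    exact ⟨z, hz⟩
  · exact isClosed_le (by fun_prop) (by fun_prop)
  · unfold om
    positivity
  · have hc : ContinuousAt (fun d => (om k d + d) / 2) s := by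
      unfold om
      have h1 : 2 + s ≠ 0 := by positivity
      have h2 : 1 + k * (s / (2 + s)) ^ 2 / 4 ≠ 0 := by positivity
      fun_prop (disch := assumption)
    have h1 : ∀ᶠ t in 𝓝 s, (om k t + t) / 2 < s :=
      hc.eventually_lt continuousAt_const (by have := om_lt hk hs; linarith)
    obtain ⟨ε, hε, h2⟩ := Metric.eventually_nhds_iff.1 h1
    refine ⟨ε / 2, by positivity, fun t ht => (h2 ?_).le⟩
    rw [Real.dist_eq, abs_lt]
    constructor <;> linarith [ht.1, ht.2]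
  · have hd : 0 < dist x y := dist_pos.2 hxy
    refine lt_of_le_of_lt (Metric.hausdorffEDist_le_of_mem_edist (near x y) ?_) ?_
    · rw [dist_comm]; exact near y x
    · have h1 := om_lt hk hd
      have h2 : 0 < om k (dist x y) := by unfold om; positivity
      rw [ENNReal.ofReal_lt_ofReal_iff (by positivity)]
      linarith
  · have h1 : Real.exp (-g x) ≤ |f x - f x| := hx
    rw [sub_self, abs_zero] at h1
    exact absurd h1 (not_le.2 (Real.exp_pos _))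

theorem line {R : ℝ → ℝ → Prop} {φ : ℝ → ℝ}
    (h1 : ∀ x, ∃ ε, 0 < ε ∧ ∀ z, R x z → ε ≤ |z - x|)
    (h2 : ∀ x y, x ≠ y → ∀ z, R x z → ∃ z', R y z' ∧ |z - z'| < φ |x - y|)
    (hL : ∀ s : ℝ, 0 < s → ∃ δ : ℝ, 0 < δ ∧ ∀ t ∈ Icc s (s + δ), φ t ≤ s)
    {z₀ : ℝ} (hz₀ : 0 < z₀) (h0 : R 0 z₀) : False := by
  have h3 : ∀ x y, x ≠ y → ∀ z, R x z → ∃ z', R y z' ∧ |z - z'| < |x - y| := by
    intro x y hxy z hz
    obtain ⟨z', hz', h⟩ := h2 x y hxy z hz
    obtain ⟨δ, hδ, h4⟩ := hL |x - y| (abs_pos.2 (sub_ne_zero.2 hxy))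
    exact ⟨z', hz', h.trans_le (h4 _ ⟨le_rfl, by linarith⟩)⟩
  obtain ⟨c, hc, hc0⟩ := h1 0
  let S : Set ℝ := {x | ∀ z, R x z → z ≤ x - c ∨ x < z}
  have hS : IsClosed S := by
    rw [← isOpen_compl_iff, Metric.isOpen_iff]
    intro x hx
    simp only [S, mem_compl_iff, mem_ofPred_eq, not_forall, not_or, not_le, not_lt] at hx
    obtain ⟨z, hz, a1, a2⟩ := hx
    obtain ⟨ε, hε, a3⟩ := h1 x
    have a4 := a3 z hz
    rw [abs_of_nonpos (by linarith)] at a4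
    refine ⟨min (ε / 2) ((z - (x - c)) / 2), lt_min (by linarith) (by linarith), fun y hy => ?_⟩
    rw [Metric.mem_ball, Real.dist_eq, lt_min_iff] at hy
    intro hyS
    by_cases e : x = y
    · subst e
      rcases hyS z hz with a | a <;> linarith
    · obtain ⟨z', hz', a5⟩ := h3 x y e z hz
      rw [abs_sub_comm x y] at a5
      have a6 := abs_lt.1 (a5.trans hy.1)
      have a7 := abs_lt.1 (a5.trans hy.2)
      have a8 := abs_lt.1 hy.1
      have a9 := abs_lt.1 hy.2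
      rcases hyS z' hz' with a | a <;> linarith [a6.1, a6.2, a7.1, a7.2, a8.1, a8.2, a9.1, a9.2]
  have hall : ∀ b, 0 ≤ b → b ∈ S := by
    intro b hb
    refine IsClosed.mem_of_ge_of_forall_exists_gt (hS.inter isClosed_Icc) (fun z hz => ?_) hb
      fun x hx => ?_
    · have := hc0 z hz
      rcases le_abs.1 this with a | a
      · right; linarith
      · left; linarith
    · obtain ⟨ε, hε, a3⟩ := h1 x
      have hm : 0 < min (ε / 2) (b - x) := lt_min (by linarith) (by linarith [hx.2.2])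
      have m1 := min_le_left (ε / 2) (b - x)
      have m2 := min_le_right (ε / 2) (b - x)
      refine ⟨x + min (ε / 2) (b - x), fun z' hz' => ?_, by linarith, by linarith⟩
      obtain ⟨z, hz, a5⟩ := h3 _ x (by linarith) z' hz'
      rw [add_sub_cancel_left, abs_of_pos hm, abs_lt] at a5
      rcases hx.1 z hz with a | a
      · left; linarith [a5.2]
      · right
        have := a3 z hz
        rw [abs_of_pos (by linarith)] at this
        linarith [a5.1]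
  obtain ⟨δ, hδ, h4⟩ := hL (c / 3) (by linarith)
  have hm : 0 < min δ (c / 3) := lt_min hδ (by linarith)
  have m1 := min_le_left δ (c / 3)
  have m2 := min_le_right δ (c / 3)
  obtain ⟨η, hη⟩ : ∃ η, η = min δ (c / 3) := ⟨_, rfl⟩
  rw [← hη] at hm m1 m2
  have key : ∀ n : ℕ, ∃ z, R (n * (c / 3 + η)) z ∧ n * (c / 3 + η) < z ∧ z ≤ z₀ + n * (c / 3) := by
    intro n
    induction n with
    | zero => exact ⟨z₀, by simpa using h0, by simpa using hz₀, by simp⟩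
    | succ n ih =>
      obtain ⟨z, a1, a2, a3⟩ := ih
      push_cast
      obtain ⟨z', b1, b2⟩ := h2 _ (((n : ℝ) + 1) * (c / 3 + η)) (by linarith) z a1
      have e : |(n : ℝ) * (c / 3 + η) - (n + 1) * (c / 3 + η)| = c / 3 + η := by
        rw [abs_sub_comm, abs_of_pos (by linarith)]; ring
      rw [e] at b2
      have b3 := abs_lt.1 (b2.trans_le (h4 _ ⟨by linarith, by linarith⟩))
      refine ⟨z', b1, ?_, by linarith [b3.1]⟩
      rcases hall _ (by positivity) z' b1 with a | a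
      · linarith [b3.2]
      · exact a
  obtain ⟨n, hn⟩ := exists_nat_gt (z₀ / η)
  obtain ⟨z, -, a2, a3⟩ := key n
  have := (div_lt_iff₀ hm).1 hn
  linarith

theorem pos (h : ∃ v₀ : X, ∀ v, ∃ r : ℝ, r • v₀ = v) (T : X → Set X) (φ : ℝ → ℝ)
    (hT : ∀ x, (T x).Nonempty ∧ IsClosed (T x))
    (hL : ∀ s : ℝ, 0 < s → ∃ δ : ℝ, 0 < δ ∧ ∀ t ∈ Icc s (s + δ), φ t ≤ s)
    (hH : ∀ x y : X, x ≠ y → Metric.hausdorffEDist (T x) (T y) < ENNReal.ofReal (φ (dist x y))) :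
    ∃ x, x ∈ T x := by
  by_contra hno
  push Not at hno
  obtain ⟨v₀, hv₀⟩ := h
  obtain ⟨w, hw⟩ := (hT 0).1
  have hw0 : w ≠ 0 := fun e => hno 0 (e ▸ hw)
  have hn : 0 < ‖w‖ := norm_pos_iff.2 hw0
  obtain ⟨e, he⟩ : ∃ e : X, e = ‖w‖⁻¹ • w := ⟨_, rfl⟩
  have he1 : ‖e‖ = 1 := by
    rw [he, norm_smul, Real.norm_of_nonneg (by positivity), inv_mul_cancel₀ hn.ne']
  have hsp : ∀ v : X, ∃ t : ℝ, t • e = v := by
    intro v
    obtain ⟨a, ha⟩ := hv₀ e
    obtain ⟨b, hb⟩ := hv₀ v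
    have ha0 : a ≠ 0 := by
      rintro rfl
      rw [← ha] at he1
      simp at he1
    exact ⟨b / a, by rw [← ha, smul_smul, div_mul_cancel₀ _ ha0, hb]⟩
  have hd : ∀ a b : ℝ, dist (a • e) (b • e) = |a - b| := fun a b => by
    rw [dist_eq_norm, ← sub_smul, norm_smul, he1, mul_one, Real.norm_eq_abs]
  refine line (R := fun x z => z • e ∈ T (x • e)) (φ := φ) (fun x => ?_) (fun x y hxy z hz => ?_)
    hL hn ?_
  · obtain ⟨ε, hε, h1⟩ := Metric.isOpen_iff.1 (hT (x • e)).2.isOpen_compl _ (hno (x • e))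
    refine ⟨ε, hε, fun z hz => not_lt.1 fun h2 => h1 ?_ hz⟩
    rw [Metric.mem_ball, hd]
    exact h2
  · have h1 : x • e ≠ y • e := by
      rw [← dist_pos, hd]
      exact abs_pos.2 (sub_ne_zero.2 hxy)
    obtain ⟨v, hv, h2⟩ := Metric.exists_edist_lt_of_hausdorffEDist_lt hz (hH _ _ h1)
    obtain ⟨z', rfl⟩ := hsp v
    rw [edist_lt_ofReal, hd, hd] at h2
    exact ⟨z', hv, h2⟩
  · show ‖w‖ • e ∈ T ((0 : ℝ) • e)
    rw [zero_smul, he, smul_smul, mul_inv_cancel₀ hn.ne', one_smul]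
    exact hw

end Pool.Agent.Work.MP_3789da_an.Nrm
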