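import Pool.Agent.Work.MP_3789da_an.Tree

/-!
The binary tree with arbitrary non-summable decreasing edge lengths (truncated path metric), and
the fixed point theorem under summability of all chains.
-/

set_option autoImplicit false

namespace Pool.Agent.Work.MP_3789da_an

open Filter Topology

universe u

/-- Edge lengths. -/
structure Ch where
  l : ℕ → ℝ
  pos : ∀ n, 0 < l n
  anti : Antitone l
  div : ¬ Summable l

namespace Ch
variable (c : Ch)

/-- Partial sums of the edge lengths. -/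
noncomputable def s (n : ℕ) : ℝ := ∑ i ∈ Finset.range n, c.l i

theorem s_succ (n : ℕ) : c.s (n + 1) = c.s n + c.l n := Finset.sum_range_succ _ _

theorem s_mono : Monotone c.s :=
  monotone_nat_of_le_succ fun n => by rw [s_succ]; linarith [c.pos n]

theorem s_tendsto : Tendsto c.s atTop atTop :=
  (not_summable_iff_tendsto_nat_atTop_of_nonneg fun n => (c.pos n).le).1 c.div

/-- The path distance in the tree. -/
noncomputable def td (x y : List Bool) : ℝ := c.s x.length + c.s y.length - 2 * c.s (cpl x y)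

theorem td_lower {x y : List Bool} (h : x ≠ y) : c.l (cpl x y) ≤ c.td x y := by
  have h1 := c.s_mono (cpl_le_left x y)
  have h2 := c.s_mono (cpl_le_right x y)
  have h3 := c.s_succ (cpl x y)
  unfold td
  by_cases hx : x.length ≤ cpl x y
  · by_cases hy : y.length ≤ cpl x y
    · exact absurd (eq_of_cpl x y hx hy) h
    · have h4 := c.s_mono (show cpl x y + 1 ≤ y.length by omega)
      linarith
  · have h4 := c.s_mono (show cpl x y + 1 ≤ x.length by omega)
    linarith

theorem td_nonneg (x y : List Bool) : 0 ≤ c.td x y := by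
  have h1 := c.s_mono (cpl_le_left x y)
  have h2 := c.s_mono (cpl_le_right x y)
  unfold td
  linarith

theorem td_tri (x y z : List Bool) : c.td x z ≤ c.td x y + c.td y z := by
  unfold td
  have h1 := c.s_mono (cpl_ultra x y z)
  have h2 := c.s_mono (cpl_le_right x y)
  have h3 := c.s_mono (cpl_le_left y z)
  rcases le_total (cpl x y) (cpl y z) with h | h
  · rw [min_eq_left h] at h1; linarith
  · rw [min_eq_right h] at h1; linarith

/-- The nodes of the binary tree. -/
@[ext] structure Nd (c : Ch) : Type u where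
  w : List Bool

theorem lower {x y : Nd.{u} c} (h : x ≠ y) {N : ℕ} (hN : cpl x.w y.w ≤ N) :
    c.l N ≤ min (c.td x.w y.w) (c.l 0) :=
  le_min ((c.anti hN).trans (c.td_lower fun k => h (Nd.ext k))) (c.anti (Nat.zero_le N))

noncomputable instance : MetricSpace (Nd.{u} c) where
  dist x y := min (c.td x.w y.w) (c.l 0)
  dist_self x := by
    rw [td, cpl_self, min_eq_left (by linarith [c.pos 0])]; ring
  dist_comm x y := by
    rw [td, td, cpl_comm, add_comm]
  dist_triangle x y z := by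
    have h1 := c.td_tri x.w y.w z.w
    have h2 := c.td_nonneg x.w y.w
    have h3 := c.td_nonneg y.w z.w
    have h4 := c.pos 0
    have h5 := min_le_left (c.td x.w z.w) (c.l 0)
    have h6 := min_le_right (c.td x.w z.w) (c.l 0)
    rcases min_choice (c.td x.w y.w) (c.l 0) with a | a <;>
      rcases min_choice (c.td y.w z.w) (c.l 0) with b | b <;> rw [a, b] <;> linarith
  eq_of_dist_eq_zero := fun {x y} h => by
    by_contra hne
    exact (c.pos _).not_ge ((c.lower hne le_rfl).trans_eq h)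

theorem dist_def (x y : Nd.{u} c) : dist x y = min (c.td x.w y.w) (c.l 0) := rfl

theorem isClosed_all (t : Set (Nd.{u} c)) : IsClosed t := by
  rw [← isOpen_compl_iff, Metric.isOpen_iff]
  refine fun x hx => ⟨c.l x.w.length, c.pos _, fun y hy => ?_⟩
  rw [Metric.mem_ball, dist_comm] at hy
  by_cases h : x = y
  · rw [← h]; exact hx
  · exact absurd (c.lower h (cpl_le_left _ _)) (not_le.mpr hy)

instance : CompleteSpace (Nd.{u} c) := by
  apply Metric.complete_of_cauchySeq_tendsto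
  intro u hu
  obtain ⟨K, hK⟩ := (Metric.cauchySeq_iff'.mp hu) _ (c.pos 0)
  obtain ⟨N, hN⟩ := (tendsto_atTop_atTop.mp c.s_tendsto) (c.l 0 + c.s (u K).w.length + 1)
  have hlen : ∀ n, K ≤ n → (u n).w.length ≤ N := fun n hn => by
    by_contra hlt
    have h1 := hN (u n).w.length (by omega)
    have h2 := (min_lt_iff.1 (hK n hn)).resolve_right (lt_irrefl _)
    have h3 := c.s_mono (cpl_le_right (u n).w (u K).w)
    unfold td at h2
    linarith
  obtain ⟨M, hM⟩ := (Metric.cauchySeq_iff.mp hu) _ (c.pos N)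
  refine ⟨u (max K M), tendsto_atTop_of_eventually_const (i₀ := max K M) fun n hn => ?_⟩
  by_contra hne
  exact absurd (c.lower hne ((cpl_le_left _ _).trans (hlen n (le_of_max_le_left hn))))
    (not_le.mpr (hM n (le_of_max_le_right hn) _ (le_max_right _ _)))

instance : Nonempty (Nd.{u} c) := ⟨⟨[]⟩⟩

theorem bdd : Bornology.IsBounded (Set.univ : Set (Nd.{u} c)) :=
  Metric.isBounded_iff.2 ⟨c.l 0, fun _ _ _ _ => min_le_right _ _⟩

/-- The nodes that are not ancestors of `x`. -/
def T (x : Nd.{u} c) : Set (Nd.{u} c) := {z | cpl z.w x.w < z.w.length}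

theorem not_mem_T (x : Nd.{u} c) : x ∉ c.T x := fun h =>
  lt_irrefl _ ((cpl_self x.w).symm.trans_lt h)

theorem T_nonempty (x : Nd.{u} c) : (c.T x).Nonempty := by
  refine ⟨⟨x.w ++ [true]⟩, ?_⟩
  show cpl (x.w ++ [true]) x.w < (x.w ++ [true]).length
  rw [cpl_comm, cpl_append_single]
  simp

theorem key (x y z : Nd.{u} c) (hz : z ∈ c.T x) :
    ∃ w ∈ c.T y, edist z w ≤ ENNReal.ofReal (c.l (cpl x.w y.w + 1)) := by
  by_cases hzy : z ∈ c.T y
  · exact ⟨z, hzy, by simp⟩
  · have h1 : cpl z.w x.w < z.w.length := hz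
    have h2 : z.w.length ≤ cpl z.w y.w := not_lt.mp hzy
    have h3 := cpl_ultra z.w y.w x.w
    rw [cpl_comm y.w x.w] at h3
    obtain ⟨b, hb⟩ := exists_child z.w y.w
    refine ⟨⟨z.w ++ [b]⟩, hb, ?_⟩
    rw [edist_dist]
    refine ENNReal.ofReal_le_ofReal ((min_le_left _ _).trans ?_)
    rw [td, cpl_append_single, List.length_append, List.length_singleton, s_succ]
    linarith [c.anti (show cpl x.w y.w + 1 ≤ z.w.length by omega)]

theorem hausdorff_le (x y : Nd.{u} c) :
    Metric.hausdorffEDist (c.T x) (c.T y) ≤ ENNReal.ofReal (c.l (cpl x.w y.w + 1)) :=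
  Metric.hausdorffEDist_le_of_mem_edist (c.key x y) (cpl_comm y.w x.w ▸ c.key y x)

end Ch

theorem fixed_of_summable {φ : ℝ → ℝ} (hle : ∀ t, 0 < t → φ t ≤ t)
    (hs : ∀ l : ℕ → ℝ, (∀ n, 0 < l n) → (∀ n, l (n + 1) < φ (l n)) → Summable l)
    (X : Type u) [MetricSpace X] [CompleteSpace X] [Nonempty X] (T : X → Set X)
    (hT : ∀ x, (T x).Nonempty ∧ IsClosed (T x))
    (hH : ∀ x y, x ≠ y → Metric.hausdorffEDist (T x) (T y) < ENNReal.ofReal (φ (dist x y))) :
    ∃ x, x ∈ T x := by
  by_contra hno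
  push Not at hno
  have step : ∀ x y, x ≠ y → ∀ a ∈ T x, ∃ b ∈ T y, dist a b < φ (dist x y) := fun x y h a ha => by
    obtain ⟨b, hb, hab⟩ := Metric.exists_edist_lt_of_hausdorffEDist_lt ha (hH x y h)
    exact ⟨b, hb, edist_lt_ofReal.1 hab⟩
  have ne : ∀ p : {p : X × X // p.2 ∈ T p.1}, p.1.1 ≠ p.1.2 := fun p h => hno p.1.1 (by
    have := p.2
    rwa [← h] at this)
  choose f hf hf' using fun p : {p : X × X // p.2 ∈ T p.1} => step _ _ (ne p) _ p.2
  obtain ⟨x0⟩ := ‹Nonempty X›
  obtain ⟨x1, hx1⟩ := (hT x0).1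
  obtain ⟨p, hp⟩ : ∃ p : ℕ → {p : X × X // p.2 ∈ T p.1},
      ∀ n, p (n + 1) = ⟨((p n).1.2, f (p n)), hf (p n)⟩ :=
    ⟨fun n => (fun q => ⟨(q.1.2, f q), hf q⟩)^[n] ⟨(x0, x1), hx1⟩,
      fun n => Function.iterate_succ_apply' _ _ _⟩
  have e : ∀ n, (p (n + 1)).1.1 = (p n).1.2 := fun n => by rw [hp]
  have h1 := hs (fun n => dist (p n).1.1 (p n).1.2) (fun n => dist_pos.2 (ne _)) fun n => by
    rw [hp]; exact hf' (p n)
  obtain ⟨v, hv⟩ := cauchySeq_tendsto_of_complete
    (cauchySeq_of_summable_dist (f := fun n => (p n).1.1) (by simpa only [Nat.succ_eq_add_one, e] using h1))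
  refine hno v ((hT v).2.closure_subset (Metric.mem_closure_iff.2 fun ε hε => ?_))
  obtain ⟨N, hN⟩ := Metric.tendsto_atTop.1 hv (ε / 2) (by linarith)
  have a1 := hN N le_rfl
  have a2 := hN (N + 1) (Nat.le_succ N)
  rw [e, dist_comm] at a2
  by_cases h : (p N).1.1 = v
  · exact ⟨_, h ▸ (p N).2, by linarith⟩
  · obtain ⟨b, hb, hb'⟩ := step _ _ h _ (p N).2
    exact ⟨b, hb, by linarith [dist_triangle v (p N).1.2 b, hle _ (dist_pos.2 h)]⟩

theorem summable_of_fixed {φ : ℝ → ℝ} (hm : MonotoneOn φ (Set.Ioi 0)) (hle : ∀ t, 0 < t → φ t ≤ t)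
    (h : ∀ (X : Type u) [MetricSpace X] [CompleteSpace X] [Nonempty X] (T : X → Set X),
      Bornology.IsBounded (Set.univ : Set X) → (∀ x, (T x).Nonempty ∧ IsClosed (T x)) →
      (∀ x y, x ≠ y → Metric.hausdorffEDist (T x) (T y) < ENNReal.ofReal (φ (dist x y))) →
      ∃ x, x ∈ T x)
    (l : ℕ → ℝ) (h0 : ∀ n, 0 < l n) (h1 : ∀ n, l (n + 1) < φ (l n)) : Summable l := by
  by_contra hs
  let c : Ch := ⟨l, h0, antitone_nat_of_succ_le fun n => (h1 n).le.trans (hle _ (h0 n)), hs⟩
  obtain ⟨x, hx⟩ := h (Ch.Nd c) c.T c.bdd (fun x => ⟨c.T_nonempty x, c.isClosed_all _⟩)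
    fun x y hxy => (c.hausdorff_le x y).trans_lt (by
      have a1 : l (cpl x.w y.w + 1) < φ (dist x y) :=
        (h1 _).trans_le (hm (h0 _) (dist_pos.2 hxy) (c.lower hxy le_rfl))
      exact (ENNReal.ofReal_lt_ofReal_iff ((h0 _).trans a1)).2 a1)
  exact c.not_mem_T x hx

end Pool.Agent.Work.MP_3789da_an
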